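import Pool.Agent.Q204.BL.Choice

set_option autoImplicit false

/-!
# `Δ¹₁`-comprehension does not imply `Σ¹₁`-choice over Basic Law V
-/

namespace Pool.Agent.Results.MP_4cf54b_lc.DeltaWithoutChoice

open Q204.BL

/-- There is a structure which satisfies `Δ¹₁-BL₀`, i.e. Basic Law V, arithmetical comprehension
and `Δ¹₁`-comprehension, in which `Σ¹₁`-choice fails; in fact choice fails already for an
arithmetical formula. -/
theorem result : ∃ 𝔐 : Str, BLV 𝔐 ∧ ArithComp 𝔐 ∧ DeltaComp 𝔐 ∧ ¬ SigmaChoice 𝔐 ∧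
    ¬ ArithChoice 𝔐 :=
  ⟨NN, blv, arithComp, deltaComp, fun h => not_choice h.arith, not_choice⟩

end Pool.Agent.Results.MP_4cf54b_lc.DeltaWithoutChoice
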